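import Pool.Agent.TH146.MN.Few2
import Pool.Agent.Results.MP_309968_ag.BoundaryRays

set_option autoImplicit false

/-!
# Nef classes with few distinct coefficients

For very general points of the plane every class `c H - ∑ x_i E_i` of self-intersection zero with
real coefficients `0 ≤ x_i ≤ M`, of which `r` nonzero ones are distinct, is nef if `c ≥ 12 M` and
`c ^ 2 ≥ (16 r + 8) M ^ 2`. There is no condition on how often the coefficients are attained.
Consequently a curve of degree `e` whose multiplicities `m_i ≤ W` take `r` nonzero values has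
nonnegative self-intersection if `e ^ 2 ≥ 144 W ^ 2` and `e ^ 2 ≥ (16 r + 8) W ^ 2`, in particular
whenever `e ^ 2 ≥ (16 W + 144) W ^ 2`.
-/

namespace Pool.Agent.Results.MP_309968_ag.FewCoefficients

open Pool.Agent.H932R3 Pool.Agent.H350R3 Pool.Agent.H350R3.GR
open Pool.Agent.Results.MP_309968_ag.BoundaryRays (MultGE curveClasses curvCone cone_le)

theorem noForm_ext {n N e : ℕ} {g : Fin N → Fin n}
    (hg : Function.Injective g) {m : Fin n → ℕ} {x : Fin N → Fin 2 → ℂ}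
    (hx : NB.Emp (fun j => m (g j)) x e) :
    NoForm (ptJ (Function.extend g x 0) m) e := by
  refine (noForm_of_emp hx).anti ?_
  unfold ptJ vIdeal
  refine le_iInf fun j => ?_
  have h2 := iInf_le (fun a => Pool.Agent.H932R2.cIdeal
    (fun _ : Fin 1 => (Function.extend g x 0 : Fin n → Fin 2 → ℂ) a 0)
    (Polynomial.C ((Function.extend g x 0 : Fin n → Fin 2 → ℂ) a 1)) (m a)) (g j)
  simp only [hg.extend_apply] at h2
  exact h2

/-- the support -/
theorem exists_supp {n : ℕ} (x : Fin n → ℝ) : ∃ (N : ℕ) (g : Fin N → Fin n),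
    Function.Injective g ∧ (∀ j, x (g j) ≠ 0) ∧ (∀ i, x i ≠ 0 → ∃ j, g j = i) ∧
      ∀ h : Fin n → ℝ, (∀ i, x i = 0 → h i = 0) → ∑ j, h (g j) = ∑ i, h i := by
  classical
  obtain ⟨I, hI⟩ : ∃ I : Finset (Fin n), I = Finset.univ.filter fun i => x i ≠ 0 := ⟨_, rfl⟩
  have hmI : ∀ i, i ∈ I ↔ x i ≠ 0 := by
    intro i
    rw [hI, Finset.mem_filter]
    exact ⟨fun h => h.2, fun h => ⟨Finset.mem_univ _, h⟩⟩
  refine ⟨I.card, fun j => (I.equivFin.symm j : Fin n), ?_, ?_, ?_, ?_⟩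
  · exact fun j j' h => I.equivFin.symm.injective (Subtype.ext h)
  · exact fun j => (hmI _).1 (I.equivFin.symm j).2
  · intro i hi
    exact ⟨I.equivFin ⟨i, (hmI i).2 hi⟩, by simp⟩
  · intro h hh
    have h1 : ∑ j, h (I.equivFin.symm j : Fin n) = ∑ i : I, h i := by
      rw [← I.equivFin.symm.sum_comp (fun i : I => h i)]
    rw [h1, Finset.sum_coe_sort I h, hI]
    refine Finset.sum_subset (Finset.subset_univ _) fun i _ hi => ?_
    rw [Finset.mem_filter] at hi
    push Not at hi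
    exact hh i (hi (Finset.mem_univ i))

/-- the inequality for all forms -/
theorem form_le (n : ℕ) : ∃ f : ℕ → MvPolynomial (Fin n × Fin 2) ℂ, (∀ k, f k ≠ 0) ∧
    ∀ p : Fin n → Fin 2 → ℂ,
      (∀ k, MvPolynomial.eval (fun q : Fin n × Fin 2 => p q.1 q.2) (f k) ≠ 0) →
      ∀ (x : Fin n → ℝ) (c M : ℝ), (∀ i, 0 ≤ x i) → (∀ i, x i ≤ M) → ∑ i, x i ^ 2 = c ^ 2 →
        12 * M ≤ c →
        (16 * (((Finset.univ.image x).erase 0).card : ℝ) + 8) * M ^ 2 ≤ c ^ 2 →
        ∀ (F : MvPolynomial (Fin 3) ℂ) (e : ℕ) (m : Fin n → ℕ), F.IsHomogeneous e → F ≠ 0 →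
          (∀ i, MultGE (p i) F (m i)) → ∑ i, x i * (m i : ℝ) ≤ c * e := by
  classical
  obtain ⟨f, hf, hf'⟩ := exists_conds_all (K := ℂ) n
  refine ⟨f, hf, fun p hp x c M hx0 hxM hsq h12 hfew F e m hF hF0 hm => ?_⟩
  obtain ⟨N, g, hg, hg0, hgs, hsum⟩ := exists_supp x
  rcases Nat.eq_zero_or_pos N with hN | hN
  · subst hN
    have h1 := hsum (fun i => x i ^ 2) (fun i hi => by simp only [hi]; norm_num)
    have h2 := hsum (fun i => x i * (m i : ℝ)) (fun i hi => by simp only [hi, zero_mul])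
    rw [Finset.univ_eq_empty, Finset.sum_empty] at h1 h2
    rw [← h2]
    have h3 : c = 0 := by
      have : c ^ 2 = 0 := by rw [← hsq, ← h1]
      exact pow_eq_zero_iff two_ne_zero |>.1 this
    rw [h3, zero_mul]
  -- the nonzero values
  obtain ⟨V, hV⟩ : ∃ V : Finset ℝ, V = (Finset.univ.image x).erase 0 := ⟨_, rfl⟩
  rw [← hV] at hfew
  have hmV : ∀ t, t ∈ V ↔ t ≠ 0 ∧ ∃ i, x i = t := by
    intro t
    rw [hV, Finset.mem_erase, Finset.mem_image]
    exact ⟨fun ⟨h1, i, _, h2⟩ => ⟨h1, i, h2⟩, fun ⟨h1, i, h2⟩ => ⟨h1, i, Finset.mem_univ _, h2⟩⟩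
  have hgV : ∀ j, x (g j) ∈ V := fun j => (hmV _).2 ⟨hg0 j, g j, rfl⟩
  let gr : Fin N → Fin V.card := fun j => V.equivFin ⟨x (g j), hgV j⟩
  let y : Fin V.card → ℝ := fun l => (V.equivFin.symm l : ℝ)
  have hy : ∀ j, y (gr j) = x (g j) := by
    intro j
    simp only [y, gr, Equiv.symm_apply_apply]
  have hyV : ∀ l, y l ∈ V := fun l => (V.equivFin.symm l).2
  have hyinj : Function.Injective y := fun l l' h => V.equivFin.symm.injective (Subtype.ext h)
  have hyex : ∀ l, ∃ i, x i ≠ 0 ∧ x i = y l := fun l => by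
    obtain ⟨h3, i, hi⟩ := (hmV _).1 (hyV l)
    exact ⟨i, by rw [hi]; exact h3, hi⟩
  have hsurj : Function.Surjective gr := by
    intro l
    obtain ⟨i, hi0, hi⟩ := hyex l
    obtain ⟨j, hj⟩ := hgs i hi0
    refine ⟨j, hyinj ?_⟩
    rw [hy, hj, hi]
  have hy0 : ∀ l, 0 < y l := fun l => by
    obtain ⟨i, hi0, hi⟩ := hyex l
    rw [← hi]
    exact lt_of_le_of_ne (hx0 i) (Ne.symm hi0)
  have hyM : ∀ l, y l ≤ M := fun l => by
    obtain ⟨i, hi0, hi⟩ := hyex l
    rw [← hi]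
    exact hxM i
  have hM : 0 < M := (hy0 (gr ⟨0, hN⟩)).trans_le (hyM _)
  have hr : 0 < V.card := Fin.pos (gr ⟨0, hN⟩)
  have hnf := Pool.Agent.TH146.MN.nf_few (c := c) hr gr hsurj y hM hy0 hyM (by
    rw [← hsq, ← hsum (fun i => x i ^ 2) (fun i hi => by simp only [hi]; norm_num)]
    exact Finset.sum_congr rfl fun j _ => by rw [hy j]) hfew h12
  by_contra hcon
  push Not at hcon
  have e1 : ∑ j, y (gr j) * (m (g j) : ℝ) = ∑ i, x i * (m i : ℝ) := by
    rw [← hsum (fun i => x i * (m i : ℝ)) (fun i hi => by simp only [hi, zero_mul])]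
    exact Finset.sum_congr rfl fun j _ => by rw [hy j]
  obtain ⟨z, hz⟩ := hnf (fun j => m (g j)) e (by rw [e1]; exact hcon)
  refine hF0 (hf' p hp e m ⟨_, noForm_ext hg hz⟩ F hF ?_)
  unfold ptJ vIdeal
  rw [Ideal.mem_iInf]
  intro i
  exact mem_of_support (p := p i) (hm i)

/-- Part (1): for very general points `p` the class `c H - ∑ x_i E_i`, `c ^ 2 = ∑ x_i ^ 2`,
`0 ≤ x_i ≤ M`, with `r` distinct nonzero coefficients, `c ≥ 12 M` and `c ^ 2 ≥ (16 r + 8) M ^ 2`, is
nonnegative on the closed cone of curves. Part (2): a form of degree `e` with the multiplicities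
`m_i ≤ W` of which `r` nonzero ones are distinct, with `144 W ^ 2` and `(16 r + 8) W ^ 2` at most
`∑ m_i ^ 2` or `e ^ 2`, satisfies `∑ m_i ^ 2 ≤ e ^ 2`. Part (3): this holds in particular if
`(16 W + 144) W ^ 2 ≤ e ^ 2`. -/
theorem result (n : ℕ) :
    ∃ f : ℕ → MvPolynomial (Fin n × Fin 2) ℂ, (∀ k, f k ≠ 0) ∧
      ∀ p : Fin n → Fin 2 → ℂ,
        (∀ k, MvPolynomial.eval (fun q : Fin n × Fin 2 => p q.1 q.2) (f k) ≠ 0) →
        (∀ (x : Fin n → ℝ) (c M : ℝ), (∀ i, 0 ≤ x i) → (∀ i, x i ≤ M) → ∑ i, x i ^ 2 = c ^ 2 →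
          12 * M ≤ c →
          (16 * (((Finset.univ.image x).erase 0).card : ℝ) + 8) * M ^ 2 ≤ c ^ 2 →
          ∀ z ∈ curvCone p, ∑ i, x i * z.2 i ≤ c * z.1) ∧
        ∀ (F : MvPolynomial (Fin 3) ℂ) (e W : ℕ) (m : Fin n → ℕ), F.IsHomogeneous e → F ≠ 0 →
          (∀ i, MultGE (p i) F (m i)) → (∀ i, m i ≤ W) →
          (144 * W ^ 2 ≤ max (∑ i, m i ^ 2) (e ^ 2) →
            (16 * ((Finset.univ.image m).erase 0).card + 8) * W ^ 2 ≤
              max (∑ i, m i ^ 2) (e ^ 2) →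
            ∑ i, m i ^ 2 ≤ e ^ 2) ∧
          ((16 * W + 144) * W ^ 2 ≤ e ^ 2 → ∑ i, m i ^ 2 ≤ e ^ 2) := by
  classical
  obtain ⟨f, hf, hf'⟩ := form_le n
  refine ⟨f, hf, fun p hp => ⟨fun x c M hx0 hxM hsq h12 hfew => ?_,
    fun F e W m hF hF0 hm hW => ?_⟩⟩
  · have h := cone_le (p := p) (l := x) (g := id) (c := c) hx0
      fun F e m hF he hF0 hm => by
        have h1 := hf' p hp x c M hx0 hxM hsq h12 hfew F e m hF hF0 hm
        simp only [id]
        linarith
    simpa using h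
  · have key : 144 * W ^ 2 ≤ max (∑ i, m i ^ 2) (e ^ 2) →
        (16 * ((Finset.univ.image m).erase 0).card + 8) * W ^ 2 ≤
          max (∑ i, m i ^ 2) (e ^ 2) → ∑ i, m i ^ 2 ≤ e ^ 2 := by
      intro h1 h2
      by_contra hcon
      push Not at hcon
      rw [max_eq_left hcon.le] at h1 h2
      have hS0 : (0 : ℝ) ≤ ∑ i, (m i : ℝ) ^ 2 := Finset.sum_nonneg fun i _ => sq_nonneg _
      obtain ⟨c, hc⟩ : ∃ c : ℝ, c = √(∑ i, (m i : ℝ) ^ 2) := ⟨_, rfl⟩
      have hc2 : c ^ 2 = ∑ i, (m i : ℝ) ^ 2 := by rw [hc]; exact Real.sq_sqrt hS0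
      have hc0 : 0 ≤ c := by rw [hc]; exact Real.sqrt_nonneg _
      have hW0 : (0 : ℝ) ≤ W := Nat.cast_nonneg W
      have h3 : (144 : ℝ) * (W : ℝ) ^ 2 ≤ c ^ 2 := by
        rw [hc2]; exact_mod_cast h1
      have h4 : 12 * (W : ℝ) ≤ c := by
        have h5 : (12 * (W : ℝ)) ^ 2 ≤ c ^ 2 := by nlinarith
        exact le_of_sq_le_sq h5 hc0
      have hcard : ((Finset.univ.image m).erase 0).card =
          ((Finset.univ.image fun i => (m i : ℝ)).erase 0).card := by
        refine Finset.card_bij (fun (t : ℕ) _ => (t : ℝ)) ?_ ?_ ?_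
        · intro t ht
          rw [Finset.mem_erase, Finset.mem_image] at ht ⊢
          obtain ⟨ht0, i, hi, hit⟩ := ht
          exact ⟨by exact_mod_cast ht0, i, hi, by rw [hit]⟩
        · intro t _ t' _ h
          exact_mod_cast h
        · intro t ht
          rw [Finset.mem_erase, Finset.mem_image] at ht
          obtain ⟨ht0, i, hi, hit⟩ := ht
          refine ⟨m i, ?_, hit⟩
          rw [Finset.mem_erase, Finset.mem_image]
          refine ⟨fun h => ht0 ?_, i, hi, rfl⟩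
          rw [← hit, h]
          norm_num
      have h5 := hf' p hp (fun i => (m i : ℝ)) c W (fun i => Nat.cast_nonneg _)
        (fun i => by exact_mod_cast hW i) hc2.symm h4 (by
          rw [← hcard, hc2]; exact_mod_cast h2) F e m hF hF0 hm
      have h6 : ∑ i, (m i : ℝ) * (m i : ℝ) = c ^ 2 := by
        rw [hc2]
        exact Finset.sum_congr rfl fun i _ => by ring
      rw [h6] at h5
      have hec : (e : ℝ) < c := by
        have h7 : (e : ℝ) ^ 2 < c ^ 2 := by rw [hc2]; exact_mod_cast hcon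
        exact lt_of_pow_lt_pow_left₀ 2 hc0 h7
      have he0 : (0 : ℝ) ≤ e := Nat.cast_nonneg e
      have hcpos : 0 < c := lt_of_le_of_lt he0 hec
      nlinarith
    refine ⟨key, fun h => key ?_ ?_⟩
    · refine le_trans ?_ (le_max_right _ _)
      refine le_trans ?_ h
      exact Nat.mul_le_mul_right _ (by omega)
    · refine le_trans ?_ (le_max_right _ _)
      refine le_trans ?_ h
      refine Nat.mul_le_mul_right _ ?_
      have h1 : ((Finset.univ.image m).erase 0) ⊆ (Finset.range (W + 1)).erase 0 := by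
        intro t ht
        rw [Finset.mem_erase, Finset.mem_image] at ht
        obtain ⟨ht0, i, -, hit⟩ := ht
        rw [Finset.mem_erase, Finset.mem_range]
        have := hW i
        exact ⟨ht0, by omega⟩
      have h2 := Finset.card_le_card h1
      rw [Finset.card_erase_of_mem (Finset.mem_range.2 (Nat.succ_pos W)), Finset.card_range] at h2
      omega

end Pool.Agent.Results.MP_309968_ag.FewCoefficients
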