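import Pool.Agent.Results.MP_309968_ag.BoundaryRays
import Pool.Agent.TH545.Nag.Coll
import Pool.Agent.TH181.Nag.Cls
import Pool.Agent.TH183.SC.Split

set_option autoImplicit false

/-!
# Irrational Seshadri constants at one point, and new irrational nef rays

For all `D, k ≥ 1` and all large `n` there are positive integers `w_1, ..., w_n`, `a`, `b` with
`a ^ 2 = ∑ w_i ^ 2 + k D b ^ 2` such that on the blow-up `X` of the plane in `n` very general points
the divisor `L = a H - ∑ w_i E_i` is ample and its Seshadri constant at `k` more very general points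
is exactly `√(L ^ 2 / k) = b √D`, an irrational number if `D` is not a square. The case `k = 1` is
the Seshadri constant of `L` at one very general point of `X`.

In explicit form: let `N = D t ^ 2` with `t ≥ t0 D` (`t0 2 = 8`), `c ≥ N`, `c ^ 2 > k N`. For all
large `s` this holds for `n = (c ^ 2 - k N) s ^ 2` and `L = c s H - (E_1 + ... + E_n)`, with the
Seshadri constant `s t √D`.
-/

namespace Pool.Agent.Results.MP_309968_ag.IrrationalSeshadri

open Pool.Agent.H932R3 Pool.Agent.H350R3 Pool.Agent.H350R3.GR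
open Pool.Agent.Results.MP_309968_ag.BoundaryRays (MultGE curveClasses curvCone cone_le)
open Pool.Agent.TH181.NagM Pool.Agent.TH183.SC

/-- Statement on `k + n` very general points `x_1, ..., x_k, p_1, ..., p_n` of the plane (outside
countably many hypersurfaces), for natural numbers `a`, `w_i` and a real number `θ`:
(1) `∑ w_i m_i < a e` for all curves of degree `e ≥ 1` with multiplicities at least `m_i` at `p_i`;
(2) the class `a H - ∑ w_i E_{p_i} - θ ∑ E_{x_j}` is nonnegative on the closed cone of curves;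
(3) for `r > θ` some curve of degree `e ≥ 1` with multiplicities at least `m` at the `k + n` points
has `a e < ∑ w_i m_{p_i} + r ∑ m_{x_j}`.
So `L = a H - ∑ w_i E_i` is ample on the blow-up of the `p_i` (if `a ^ 2 > ∑ w_i ^ 2` and all
`w_i ≥ 1`) and its Seshadri constant at `x_1, ..., x_k` is `θ`. -/
def ExactConstant (k n a : ℕ) (w : Fin n → ℕ) (θ : ℝ) : Prop :=
  ∃ f : ℕ → MvPolynomial (Fin (k + n) × Fin 2) ℂ, (∀ j, f j ≠ 0) ∧
    ∀ p : Fin (k + n) → Fin 2 → ℂ,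
      (∀ j, MvPolynomial.eval (fun q : Fin (k + n) × Fin 2 => p q.1 q.2) (f j) ≠ 0) →
      (∀ (F : MvPolynomial (Fin 3) ℂ) (e : ℕ) (m : Fin (k + n) → ℕ), F.IsHomogeneous e →
        0 < e → F ≠ 0 → (∀ i, MultGE (p i) F (m i)) →
        ∑ i : Fin n, (w i : ℝ) * m (Fin.natAdd k i) < a * e) ∧
      (∀ x ∈ curvCone p, ∑ i : Fin n, (w i : ℝ) * x.2 (Fin.natAdd k i) +
        θ * ∑ j : Fin k, x.2 (Fin.castAdd n j) ≤ a * x.1) ∧
      ∀ r : ℝ, θ < r →
        ∃ (F : MvPolynomial (Fin 3) ℂ) (e : ℕ) (m : Fin (k + n) → ℕ), F.IsHomogeneous e ∧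
          0 < e ∧ F ≠ 0 ∧ (∀ i, MultGE (p i) F (m i)) ∧
          (a : ℝ) * e < ∑ i : Fin n, (w i : ℝ) * m (Fin.natAdd k i) +
            r * ∑ j : Fin k, (m (Fin.castAdd n j) : ℝ)

theorem noForm_ext' {n r e : ℕ} {g : Fin r → Fin n} (hg : Function.Injective g) {m : Fin n → ℕ}
    {x : Fin r → Fin 2 → ℂ} (hx : NB.Emp (fun j => m (g j)) x e) :
    NoForm (ptJ (Function.extend g x 0) m) e := by
  refine (noForm_of_emp hx).anti ?_
  unfold ptJ vIdeal
  refine le_iInf fun j => ?_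
  have h2 := iInf_le (fun a => H932R2.cIdeal
    (fun _ : Fin 1 => (Function.extend g x 0 : Fin n → Fin 2 → ℂ) a 0)
    (Polynomial.C ((Function.extend g x 0 : Fin n → Fin 2 → ℂ) a 1)) (m a)) (g j)
  simp only [hg.extend_apply] at h2
  exact h2

/-- the form of degree `e` with the dehomogenization `g` -/
noncomputable def hom (e : ℕ) (g : MvPolynomial (Fin 2) ℂ) : MvPolynomial (Fin 3) ℂ :=
  ∑ s ∈ g.support, MvPolynomial.C (MvPolynomial.coeff s g) *
    (MvPolynomial.X 0 ^ s 0 * MvPolynomial.X 1 ^ s 1 * MvPolynomial.X 2 ^ (e - (s 0 + s 1)))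

theorem hom_isHomogeneous {e : ℕ} {g : MvPolynomial (Fin 2) ℂ}
    (hg : ∀ α, MvPolynomial.coeff α g ≠ 0 → Finsupp.degree α ≤ e) : (hom e g).IsHomogeneous e := by
  unfold hom
  refine MvPolynomial.IsHomogeneous.sum _ _ _ fun s hs => ?_
  have h1 := hg s (MvPolynomial.mem_support_iff.1 hs)
  rw [Finsupp.degree_eq_sum, Fin.sum_univ_two] at h1
  have h2 := (MvPolynomial.isHomogeneous_C (Fin 3) (MvPolynomial.coeff s g)).mul
    ((((MvPolynomial.isHomogeneous_X ℂ (0 : Fin 3)).pow (s 0)).mul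
      ((MvPolynomial.isHomogeneous_X ℂ (1 : Fin 3)).pow (s 1))).mul
      ((MvPolynomial.isHomogeneous_X ℂ (2 : Fin 3)).pow (e - (s 0 + s 1))))
  have e1 : 0 + (1 * s 0 + 1 * s 1 + 1 * (e - (s 0 + s 1))) = e := by omega
  rwa [e1] at h2

theorem aeval_hom (e : ℕ) (g : MvPolynomial (Fin 2) ℂ) (a : Fin 2 → ℂ) :
    MvPolynomial.aeval ![(MvPolynomial.X 0 : MvPolynomial (Fin 2) ℂ) + MvPolynomial.C (a 0),
      (MvPolynomial.X 1 : MvPolynomial (Fin 2) ℂ) + MvPolynomial.C (a 1),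
      (1 : MvPolynomial (Fin 2) ℂ)] (hom e g) = H932R5.shift (E := 1) a g := by
  unfold hom H932R5.shift
  rw [map_sum, MvPolynomial.aeval_def (fun j : Fin (1 + 1) => MvPolynomial.X j + MvPolynomial.C (a j)),
    MvPolynomial.eval₂_eq']
  refine Finset.sum_congr rfl fun s _ => ?_
  rw [Fin.prod_univ_two]
  simp [MvPolynomial.algebraMap_eq]

theorem multGE_hom {e m : ℕ} {g : MvPolynomial (Fin 2) ℂ} {a : Fin 2 → ℂ}
    (h : g ∈ H932R5.pt (E := 1) a ^ m) : MultGE a (hom e g) m := by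
  intro s hs
  rw [aeval_hom] at hs
  by_contra hlt
  push Not at hlt
  rw [MvPolynomial.mem_support_iff] at hs
  apply hs
  apply H932R5.mem_pt_pow_iff.1 h
  rw [Finsupp.degree_eq_sum, Fin.sum_univ_two]
  exact hlt

theorem hom_ne_zero {e : ℕ} {g : MvPolynomial (Fin 2) ℂ} (hg : g ≠ 0) : hom e g ≠ 0 := by
  intro h
  apply hg
  have h1 := aeval_hom e g 0
  rw [h, map_zero] at h1
  have h2 := H932R5.shift_shift (E := 1) (0 : Fin 2 → ℂ) g
  rw [← h1, map_zero] at h2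
  exact h2.symm

/-- curves which show that the constant is not larger -/
theorem upper {k n a : ℕ} {w : Fin n → ℕ} {θ : ℝ} (hk : 1 ≤ k) (hθ : 0 < θ) (ha : 1 ≤ a)
    (hsq : (a : ℝ) ^ 2 = ∑ i, (w i : ℝ) ^ 2 + k * θ ^ 2) (p : Fin (k + n) → Fin 2 → ℂ) {r : ℝ}
    (hr : θ < r) : ∃ (F : MvPolynomial (Fin 3) ℂ) (e : ℕ) (m : Fin (k + n) → ℕ),
      F.IsHomogeneous e ∧ 0 < e ∧ F ≠ 0 ∧ (∀ i, MultGE (p i) F (m i)) ∧
      (a : ℝ) * e < ∑ i : Fin n, (w i : ℝ) * m (Fin.natAdd k i) +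
        r * ∑ j : Fin k, (m (Fin.castAdd n j) : ℝ) := by
  have hk' : (1 : ℝ) ≤ k := by exact_mod_cast hk
  have haR : (1 : ℝ) ≤ a := by exact_mod_cast ha
  have hr0 : 0 < r := hθ.trans hr
  have h1 : θ ^ 2 / r < θ := by
    rw [div_lt_iff₀ hr0]
    nlinarith
  obtain ⟨η, h2, h3⟩ := exists_between h1
  rw [div_lt_iff₀ hr0] at h2
  have hη0 : 0 < η := by
    by_contra h0
    push Not at h0
    nlinarith
  -- the two gaps
  obtain ⟨δ, hδ⟩ : ∃ δ : ℝ, δ = θ ^ 2 - η ^ 2 := ⟨_, rfl⟩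
  have hδ0 : 0 < δ := by rw [hδ]; nlinarith
  obtain ⟨ε, hε⟩ : ∃ ε : ℝ, ε = η * r - θ ^ 2 := ⟨_, rfl⟩
  have hε0 : 0 < ε := by rw [hε]; linarith
  obtain ⟨W, hW⟩ : ∃ W : ℝ, W = ∑ i, (w i : ℝ) := ⟨_, rfl⟩
  have hW0 : 0 ≤ W := by rw [hW]; positivity
  obtain ⟨y, hy⟩ := exists_nat_gt ((W + k * η) / δ + r / ε)
  have hy1 : (W + k * η) / δ < y := by
    have : 0 < r / ε := by positivity
    linarith
  have hy2 : r / ε < y := by
    have : 0 ≤ (W + k * η) / δ := by positivity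
    linarith
  rw [div_lt_iff₀ hδ0] at hy1
  rw [div_lt_iff₀ hε0] at hy2
  have hy0 : (0 : ℝ) < y := by
    by_contra h0
    push Not at h0
    nlinarith
  have hyN : 0 < y := by exact_mod_cast hy0
  obtain ⟨b, hb⟩ : ∃ b : ℕ, b = ⌊η * y⌋₊ := ⟨_, rfl⟩
  have hb1 : (b : ℝ) ≤ η * y := by rw [hb]; exact Nat.floor_le (by positivity)
  have hb2 : η * y < b + 1 := by rw [hb]; exact Nat.lt_floor_add_one _
  let v : Fin (k + n) → ℕ := Fin.append (fun _ : Fin k => b) (fun i : Fin n => y * w i)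
  obtain ⟨g, hg0, hg, hgd⟩ := exists_poly (K := ℂ) v p (a * y) (by
    have h4 : (((∑ i, (v i * (v i + 1) : ℕ) : ℕ)) : ℝ) <
        (((a * y + 1) * (a * y + 2) : ℕ) : ℝ) := by
      rw [Fin.sum_univ_add]
      simp only [v, Fin.append_left, Fin.append_right, Finset.sum_const, Finset.card_univ,
        Fintype.card_fin, smul_eq_mul]
      push_cast
      have hb0 : (0 : ℝ) ≤ b := Nat.cast_nonneg b
      have h5 : (b : ℝ) * (b + 1) ≤ η * y * (η * y + 1) :=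
        mul_le_mul hb1 (by linarith) (by linarith) (by positivity)
      have h6 : (k : ℝ) * (b * (b + 1)) ≤ k * (η * y * (η * y + 1)) :=
        mul_le_mul_of_nonneg_left h5 (by linarith)
      have h6' : ∑ i, (y : ℝ) * w i * (y * w i + 1) = y ^ 2 * ∑ i, (w i : ℝ) ^ 2 + y * W := by
        rw [hW, Finset.mul_sum, Finset.mul_sum, ← Finset.sum_add_distrib]
        exact Finset.sum_congr rfl fun i _ => by ring
      rw [h6']
      have h8 : (y : ℝ) ^ 2 * ∑ i, (w i : ℝ) ^ 2 = a ^ 2 * y ^ 2 - k * θ ^ 2 * y ^ 2 := by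
        rw [hsq]; ring
      have h9 : (W + k * η) * (y : ℝ) < y * δ * y := mul_lt_mul_of_pos_right hy1 hy0
      have h10 : (y : ℝ) * δ * y ≤ k * δ * y ^ 2 := by
        have : 1 * (δ * (y : ℝ) ^ 2) ≤ k * (δ * y ^ 2) :=
          mul_le_mul_of_nonneg_right hk' (by positivity)
        linarith
      have h11 : (0 : ℝ) ≤ a * y := by positivity
      have h12 : (k : ℝ) * δ * y ^ 2 = k * θ ^ 2 * y ^ 2 - k * η ^ 2 * y ^ 2 := by rw [hδ]; ring
      have h13 : (k : ℝ) * (η * y * (η * y + 1)) = k * η ^ 2 * y ^ 2 + k * η * y := by ring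
      have h14 : ((a : ℝ) * y + 1) * (a * y + 2) = a ^ 2 * y ^ 2 + 3 * (a * y) + 2 := by ring
      rw [h8, h14]
      linarith
    exact_mod_cast h4)
  refine ⟨hom (a * y) g, a * y, v, hom_isHomogeneous hgd, Nat.mul_pos ha hyN,
    hom_ne_zero hg0, fun i => multGE_hom (hg i), ?_⟩
  simp only [v, Fin.append_left, Fin.append_right, Finset.sum_const, Finset.card_univ,
    Fintype.card_fin, nsmul_eq_mul]
  push_cast
  have h4 : (a : ℝ) * (a * y) = y * a ^ 2 := by ring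
  have h4' : ∑ i, (w i : ℝ) * ((y : ℝ) * w i) = y * ∑ i, (w i : ℝ) ^ 2 := by
    rw [Finset.mul_sum]
    exact Finset.sum_congr rfl fun i _ => by ring
  rw [h4, h4', hsq]
  have h5 : (k : ℝ) * r * (η * y - 1) ≤ k * r * b := by
    refine mul_le_mul_of_nonneg_left (by linarith) (by positivity)
  have h6 : (k : ℝ) * r < k * (y * ε) := mul_lt_mul_of_pos_left hy2 (by linarith)
  rw [hε] at h6
  nlinarith

/-- the conclusion from the inequalities for the two classes -/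
theorem exact_of_nf {k n a : ℕ} {w : Fin n → ℕ} {θ R : ℝ} (hk : 1 ≤ k) (hθ : 0 < θ) (ha : 1 ≤ a)
    (hsq : (a : ℝ) ^ 2 = ∑ i, (w i : ℝ) ^ 2 + k * θ ^ 2)
    (h1 : NB.Nf ℂ (clw k θ w) a) (h2 : NB.Nf ℂ (fun i => (w i : ℝ)) R) (hR : R < a) :
    ExactConstant k n a w θ := by
  classical
  have hcls : ∀ i, 0 ≤ clw k θ w i := by
    intro i
    refine Fin.addCases (fun j => ?_) (fun j => ?_) i
    · unfold clw; rw [Fin.append_left]; exact hθ.le
    · unfold clw; rw [Fin.append_right]; exact Nat.cast_nonneg _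
  obtain ⟨f, hf, hf'⟩ := exists_conds_all (K := ℂ) (k + n)
  refine ⟨f, hf, fun p hp => ⟨fun F e m hF he hF0 hm => ?_, fun x hx => ?_, fun r hr =>
    upper hk hθ ha hsq p hr⟩⟩
  · -- ampleness
    by_contra hcon
    push Not at hcon
    have heR : (0 : ℝ) < e := by exact_mod_cast he
    obtain ⟨x, hx⟩ := h2 (fun i => m (Fin.natAdd k i)) e
      (lt_of_lt_of_le (mul_lt_mul_of_pos_right hR heR) hcon)
    refine hF0 (hf' p hp e m ⟨_, noForm_ext' (g := Fin.natAdd k)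
      (fun i j h => by simpa using h) hx⟩ F hF ?_)
    unfold ptJ vIdeal
    rw [Ideal.mem_iInf]
    intro i
    exact mem_of_support (p := p i) (hm i)
  · -- nefness
    have h3 := cone_le (p := p) (l := clw k θ w) (g := id) (c := a) hcls
      (fun F e m hF he hF0 hm => by
        by_contra hcon
        push Not at hcon
        obtain ⟨x, hx⟩ := h1 m e (by
          simp only [id] at hcon
          linarith)
        refine hF0 (hf' p hp e m ⟨_, noForm_ext' (g := id) Function.injective_id hx⟩ F hF ?_)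
        unfold ptJ vIdeal
        rw [Ideal.mem_iInf]
        intro i
        exact mem_of_support (p := p i) (hm i)) x hx
    simp only [id] at h3
    rw [sum_clw] at h3
    exact h3

/-- the classes with equal weights -/
theorem family : ∃ t0 : ℕ → ℕ, t0 2 = 8 ∧ (∀ D, 1 ≤ D → 1 ≤ t0 D) ∧ ∀ D t k c : ℕ, 1 ≤ D →
    t0 D ≤ t → 1 ≤ k → D * t ^ 2 ≤ c → k * (D * t ^ 2) < c ^ 2 → ∃ s0 : ℕ, 1 ≤ s0 ∧
      ∀ s n : ℕ, s0 ≤ s → n = (c ^ 2 - k * (D * t ^ 2)) * s ^ 2 →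
        NB.Nf ℂ (cls k n (s * t * √(D : ℝ))) (c * s) ∧
        NB.Nf ℂ (fun _ : Fin n => (1 : ℝ)) √(n : ℝ) := by
  obtain ⟨t0, h8, h0⟩ := Pool.Agent.TH545.Nag.exists_t0
  refine ⟨t0, h8, fun D hD => (h0 D hD).1, fun D t k c hD ht hk hcN hkN => ?_⟩
  obtain ⟨ht0, hMv⟩ := h0 D hD
  have ht1 : 1 ≤ t := ht0.trans ht
  have hDt := hMv t ht
  obtain ⟨N, hN⟩ : ∃ N, N = D * t ^ 2 := ⟨_, rfl⟩
  rw [← hN] at hcN hkN
  have hNR : (N : ℝ) = (D : ℝ) * (t : ℝ) ^ 2 := by rw [hN]; push_cast; ring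
  rw [← hNR] at hDt
  have hN1 : 1 ≤ N := by rw [hN]; exact Nat.succ_le_of_lt (by positivity)
  obtain ⟨K, hK⟩ : ∃ K, K = c ^ 2 - k * N := ⟨_, rfl⟩
  have hK1 : 1 ≤ K := by omega
  have hcK : c ^ 2 = k * N + K := by omega
  obtain ⟨hm1, s1, hs1, hm2⟩ := moves (k := k) hN1 hcN hK1 hcK hDt
  obtain ⟨s2, hs2, hm3⟩ := Pool.Agent.TH181.Nag.Emp_cls hK1
  refine ⟨max s1 s2, le_max_of_le_left hs1, fun s n hs hn => ?_⟩
  rw [← hN, ← hK] at hn
  have hss1 : s1 ≤ s := (le_max_left _ _).trans hs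
  have hss2 : s2 ≤ s := (le_max_right _ _).trans hs
  have hs1' : 1 ≤ s := hs1.trans hss1
  have htR : (0 : ℝ) < t := by exact_mod_cast ht1
  have hDR : (0 : ℝ) < D := by exact_mod_cast hD
  have hsqN : √(N : ℝ) = t * √(D : ℝ) := by
    rw [hNR, Real.sqrt_mul hDR.le, Real.sqrt_sq htR.le, mul_comm]
  constructor
  · have e : (s : ℝ) * t * √(D : ℝ) = s * √(N : ℝ) := by rw [hsqN]; ring
    rw [e]
    exact nf_cls hN1 hcN hK1 hk hcK hs1' hn hm1 (hm2 s hss1)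
  · intro m e h
    simp only [one_mul] at h
    have h2 := hm3 s hss2 (Fin n) (by rw [Fintype.card_fin, hn]) m e (by rw [← hn]; exact h)
    exact Pool.Agent.TH545.Nag.nbEmp_of_Emp h2

theorem result :
    (∀ D : ℕ, ¬ IsSquare D → ∀ b : ℕ, 1 ≤ b → Irrational (b * √(D : ℝ))) ∧
    (∀ D k : ℕ, 1 ≤ D → 1 ≤ k → ∃ n0 : ℕ, ∀ n : ℕ, n0 ≤ n →
      ∃ (a b : ℕ) (w : Fin n → ℕ), 1 ≤ b ∧ (∀ i, 1 ≤ w i) ∧
        a ^ 2 = ∑ i, w i ^ 2 + k * (D * b ^ 2) ∧ ExactConstant k n a w (b * √(D : ℝ))) ∧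
    ∃ t0 : ℕ → ℕ, t0 2 = 8 ∧ ∀ D t k c : ℕ, 1 ≤ D → t0 D ≤ t → 1 ≤ k → D * t ^ 2 ≤ c →
      k * (D * t ^ 2) < c ^ 2 → ∃ s0 : ℕ, ∀ s n : ℕ, s0 ≤ s →
      n = (c ^ 2 - k * (D * t ^ 2)) * s ^ 2 →
      ExactConstant k n (c * s) (fun _ => 1) (s * t * √(D : ℝ)) := by
  obtain ⟨t0, h8, ht0, hfam⟩ := family
  refine ⟨fun D hD b hb => ?_, fun D k hD hk => ?_, t0, h8, fun D t k c hD ht hk hcN hkN => ?_⟩
  · exact (irrational_sqrt_natCast_iff.2 hD).natCast_mul (by omega)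
  · -- all large numbers of points
    obtain ⟨t, ht⟩ : ∃ t, t = t0 D := ⟨_, rfl⟩
    have ht1 : 1 ≤ t := by rw [ht]; exact ht0 D hD
    obtain ⟨c, hc⟩ : ∃ c, c = k * (D * t ^ 2) + 1 := ⟨_, rfl⟩
    have hN1 : 1 ≤ D * t ^ 2 := Nat.succ_le_of_lt (by positivity)
    have hN2 : D * t ^ 2 ≤ k * (D * t ^ 2) := Nat.le_mul_of_pos_left _ hk
    have hkc : k * (D * t ^ 2) < c ^ 2 := by rw [hc]; nlinarith
    obtain ⟨s0, hs0, hs⟩ := hfam D t k c hD (by omega) hk (by omega) hkc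
    obtain ⟨n1, hn1⟩ : ∃ n1, n1 = (c ^ 2 - k * (D * t ^ 2)) * s0 ^ 2 := ⟨_, rfl⟩
    obtain ⟨hA, hB⟩ := hs s0 n1 le_rfl hn1
    have hs0R : (0 : ℝ) < s0 := by exact_mod_cast hs0
    have htR : (0 : ℝ) < t := by exact_mod_cast ht1
    have hDR : (0 : ℝ) < D := by exact_mod_cast hD
    have hkR : (0 : ℝ) < k := by exact_mod_cast hk
    have hcR : (0 : ℝ) < c := by
      have : 0 < c := by omega
      exact_mod_cast this
    have hθ : 0 < (s0 : ℝ) * t * √(D : ℝ) := by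
      have : 0 < √(D : ℝ) := Real.sqrt_pos.2 hDR
      positivity
    have hn11 : 1 ≤ n1 := by
      rw [hn1]
      exact Nat.mul_pos (by omega) (by positivity)
    have hsum : ((c : ℝ) * s0) ^ 2 = n1 + k * ((s0 : ℝ) * t * √(D : ℝ)) ^ 2 := by
      have h1 : ((c ^ 2 : ℕ) : ℝ) = ((k * (D * t ^ 2) + (c ^ 2 - k * (D * t ^ 2)) : ℕ) : ℝ) := by
        congr 1; omega
      have h2 : (n1 : ℝ) = ((c ^ 2 - k * (D * t ^ 2) : ℕ) : ℝ) * (s0 : ℝ) ^ 2 := by
        rw [hn1]; push_cast; ring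
      have h3 : √(D : ℝ) ^ 2 = D := Real.sq_sqrt hDR.le
      rw [h2, mul_pow, mul_pow, mul_pow, h3]
      rw [Nat.cast_add] at h1
      push_cast at h1
      rw [h1]
      ring
    refine ⟨n1 + 16, fun n hn => ?_⟩
    obtain ⟨M, w, hM, hw, hwS, hNf1, hNf2⟩ := ((Wts.base hA hB).all hθ hn11 n hn).nat
    have hMR : (0 : ℝ) < M := by exact_mod_cast hM
    have hwR : ∑ i, (w i : ℝ) ^ 2 = M ^ 2 * n1 := by exact_mod_cast hwS
    have hb : (M : ℝ) * (s0 * t * √(D : ℝ)) = ((M * s0 * t : ℕ) : ℝ) * √(D : ℝ) := by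
      push_cast; ring
    have ha : (M : ℝ) * (c * s0) = ((M * (c * s0) : ℕ) : ℝ) := by push_cast; ring
    have hsq : ((M * (c * s0) : ℕ) : ℝ) ^ 2 = ∑ i, (w i : ℝ) ^ 2 +
        k * (((M * s0 * t : ℕ) : ℝ) * √(D : ℝ)) ^ 2 := by
      rw [← ha, ← hb, hwR, mul_pow, hsum]
      ring
    refine ⟨M * (c * s0), M * s0 * t, w, Nat.mul_pos (Nat.mul_pos hM hs0) ht1, hw, ?_, ?_⟩
    · have h3 : √(D : ℝ) ^ 2 = D := Real.sq_sqrt hDR.le
      rw [mul_pow _ (√(D : ℝ)), h3] at hsq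
      have h4 : (((M * (c * s0)) ^ 2 : ℕ) : ℝ) =
          ((∑ i, w i ^ 2 + k * (D * (M * s0 * t) ^ 2) : ℕ) : ℝ) := by
        push_cast at hsq ⊢
        rw [hsq]
        ring
      exact_mod_cast h4
    · rw [hb, ha] at hNf1
      refine exact_of_nf hk (by rw [← hb]; positivity)
        (Nat.mul_pos hM (Nat.mul_pos (by omega) hs0)) hsq hNf1 hNf2 ?_
      rw [← ha]
      refine mul_lt_mul_of_pos_left ?_ hMR
      rw [Real.sqrt_lt' (by positivity), hsum]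
      have : 0 < k * ((s0 : ℝ) * t * √(D : ℝ)) ^ 2 := by positivity
      linarith
  · -- equal weights
    obtain ⟨s0, hs0, hs⟩ := hfam D t k c hD ht hk hcN hkN
    refine ⟨s0, fun s n hss hn => ?_⟩
    obtain ⟨hA, hB⟩ := hs s n hss hn
    have hs1 : 1 ≤ s := hs0.trans hss
    have ht1 : 1 ≤ t := (ht0 D hD).trans ht
    have hN1 : 1 ≤ D * t ^ 2 := Nat.succ_le_of_lt (by positivity)
    have hc1 : 1 ≤ c := hN1.trans hcN
    have hs0R : (0 : ℝ) < s := by exact_mod_cast hs1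
    have htR : (0 : ℝ) < t := by exact_mod_cast ht1
    have hDR : (0 : ℝ) < D := by exact_mod_cast hD
    have hkR : (0 : ℝ) < k := by exact_mod_cast hk
    have hcR : (0 : ℝ) < c := by exact_mod_cast hc1
    have hθ : 0 < (s : ℝ) * t * √(D : ℝ) := by
      have : 0 < √(D : ℝ) := Real.sqrt_pos.2 hDR
      positivity
    have hsum : ((c : ℝ) * s) ^ 2 = n + k * ((s : ℝ) * t * √(D : ℝ)) ^ 2 := by
      have h1 : ((c ^ 2 : ℕ) : ℝ) = ((k * (D * t ^ 2) + (c ^ 2 - k * (D * t ^ 2)) : ℕ) : ℝ) := by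
        congr 1; omega
      have h2 : (n : ℝ) = ((c ^ 2 - k * (D * t ^ 2) : ℕ) : ℝ) * (s : ℝ) ^ 2 := by
        rw [hn]; push_cast; ring
      have h3 : √(D : ℝ) ^ 2 = D := Real.sq_sqrt hDR.le
      rw [h2, mul_pow, mul_pow, mul_pow, h3]
      rw [Nat.cast_add] at h1
      push_cast at h1
      rw [h1]
      ring
    have hcl : clw k ((s : ℝ) * t * √(D : ℝ)) (fun _ : Fin n => 1) =
        cls k n ((s : ℝ) * t * √(D : ℝ)) := by
      unfold clw cls
      simp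
    refine exact_of_nf (R := √(n : ℝ)) hk hθ (Nat.mul_pos hc1 hs1) ?_ ?_ ?_ ?_
    · push_cast
      rw [hsum]
      simp
    · rw [hcl]
      push_cast
      exact hA
    · simpa using hB
    · push_cast
      rw [Real.sqrt_lt' (by positivity), hsum]
      have : 0 < k * ((s : ℝ) * t * √(D : ℝ)) ^ 2 := by positivity
      linarith

end Pool.Agent.Results.MP_309968_ag.IrrationalSeshadri
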