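import Mathlib
import Pool.Agent.Results.MP_309968_ag.BoundaryRays
import Pool.Agent.TH207.NC.Chain

set_option autoImplicit false

/-!
# Nef rays with three groups of points

For a rational number `t = A / B` let `L(t)` be the list of the sides of the squares in the Euclidean
subdivision of the rectangle with sides `t` and `1`, and for a finite sum `t` of rational numbers
let `L(t)` be the union of their lists. For very general points the class
`3 a H - (a L(t₁), u L(t₂), L(t₃))` of self-intersection zero is nef if `a ≥ u > 0`,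
`(9 - t₁) a ^ 2 = t₂ u ^ 2 + t₃`, `t₂ u ≤ (9 - t₁) a` and one of the numbers `a`, `u` is an integer.
For `t₁ = t₂ = 0`, `t₃ = A / B` these are the classes `√(A B) H - ∑ L_j E_j`, `A ≥ 9 B`. The
classes can be composed.
-/

namespace Pool.Agent.Results.MP_309968_ag.NonuniformIrrationalRays

open Pool.Agent.H932R3 Pool.Agent.H350R3 Pool.Agent.H350R3.GR
open Pool.Agent.Results.MP_309968_ag.BoundaryRays (MultGE curveClasses curvCone cone_le
  noForm_ext degree_pos mult_pos)
open Pool.Agent.TH207.NC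

/-- `Group t N`: `t` is a finite sum of numbers `A / B` (`A`, `B` positive integers) and `N` is the
list of all numbers `m / B`, where `m` runs over the sides of the squares in the Euclidean
subdivision of the rectangle with sides `A` and `B`, for the summands `A / B`. -/
inductive Group : ℝ → List ℝ → Prop
  | nil : Group 0 []
  | add (A B : ℕ) (L : List ℕ) (t : ℝ) (N : List ℝ) : 0 < A → 0 < B → Mult A B L → Group t N →
      Group ((A : ℝ) / B + t) (L.map (fun m : ℕ => (m : ℝ) / B) ++ N)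

/-- `Sharp L c`: the class `c H - ∑ L_j E_j` is obtained from the classes
`3 a H - (a L₁, u L₂, L₃)`, where `L₁`, `L₂`, `L₃` are groups with the sums `t₁ < 9`, `t₂`, `t₃`,
the numbers `a ≥ u > 0` satisfy `(9 - t₁) a ^ 2 = t₂ u ^ 2 + t₃` and `t₂ u ≤ (9 - t₁) a` and one of
them is an integer, and from the rational classes `Sharp 2 L c` of the file `BoundaryRays`, by
scaling and by replacing a coefficient `w` by the coefficients of a class
`w H - ∑ L'_j E_j` with `Sharp L' w`. -/
inductive Sharp : List ℝ → ℝ → Prop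
  | rational (L : List ℝ) (c : ℝ) : BoundaryRays.Sharp 2 L c → Sharp L c
  | three (t₁ t₂ t₃ a u : ℝ) (L₁ L₂ L₃ : List ℝ) : Group t₁ L₁ → Group t₂ L₂ → Group t₃ L₃ →
      t₁ < 9 → 0 < u → u ≤ a → t₂ * u ≤ (9 - t₁) * a → (9 - t₁) * a ^ 2 = t₂ * u ^ 2 + t₃ →
      (∃ m : ℕ, u = m) ∨ (∃ m : ℕ, a = m) →
      Sharp (L₁.map (fun x => a * x) ++ (L₂.map (fun x => u * x) ++ L₃)) (3 * a)
  | scale (a c : ℝ) (L : List ℝ) : 0 < a → Sharp L c → Sharp (L.map fun t => a * t) (a * c)
  | glue (c w : ℝ) (L₁ L₂ L' : List ℝ) : Sharp (L₁ ++ [w] ++ L₂) c → Sharp L' w →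
      Sharp (L₁ ++ L' ++ L₂) c

theorem sum_sq_mul (a : ℝ) (L : List ℝ) :
    ((L.map fun x => a * x).map fun t => t ^ 2).sum = a ^ 2 * (L.map fun t => t ^ 2).sum := by
  rw [List.map_map]
  have h5 : ((fun t : ℝ => t ^ 2) ∘ fun t => a * t) = fun t => a ^ 2 * t ^ 2 := by
    funext t
    simp only [Function.comp_apply]
    ring
  rw [h5, List.sum_map_mul_left]

theorem Group.props {t : ℝ} {N : List ℝ} (h : Group t N) :
    0 ≤ t ∧ (∀ x ∈ N, 0 < x) ∧ (N.map fun x => x ^ 2).sum = t ∧ ∀ μ : ℝ, Tr t μ N 1 := by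
  induction h with
  | nil => exact ⟨le_rfl, by simp, by simp, Tr.nil⟩
  | add A B L t N hA hB hL _ ih =>
    obtain ⟨h1, h2, h3, h4⟩ := ih
    have hA' : (0 : ℝ) < A := by exact_mod_cast hA
    have hB' : (0 : ℝ) < B := by exact_mod_cast hB
    have hAB : (0 : ℝ) < (A : ℝ) / B := by positivity
    have e : (L.map fun m : ℕ => (m : ℝ) / B) =
        (L.map fun m : ℕ => (m : ℝ)).map fun x => 1 / (B : ℝ) * x := by
      rw [List.map_map]
      refine List.map_congr_left fun m _ => ?_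
      simp only [Function.comp_apply]
      ring
    refine ⟨by linarith, ?_, ?_, fun μ => ?_⟩
    · intro x hx
      rcases List.mem_append.1 hx with hx | hx
      · obtain ⟨m, hm, rfl⟩ := List.mem_map.1 hx
        have : (0 : ℝ) < m := by exact_mod_cast mult_pos hL m hm
        positivity
      · exact h2 x hx
    · rw [List.map_append, List.sum_append, h3, e, sum_sq_mul]
      have h6 : ((L.map fun m : ℕ => (m : ℝ)).map fun t => t ^ 2).sum = (A : ℝ) * B := by
        have h7 := hL.sum_sq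
        have h8 : (((L.map fun m => m ^ 2).sum : ℕ) : ℝ) = ((A * B : ℕ) : ℝ) := by rw [h7]
        rw [Nat.cast_list_sum, List.map_map] at h8
        push_cast at h8
        rw [← h8, List.map_map]
        congr 1
        refine List.map_congr_left fun m _ => ?_
        simp
      rw [h6]
      field_simp
    · have h6 := Tr.add (s := t) (μ := μ - (A : ℝ) / B) (t := (A : ℝ) / B) (c := 1) (c' := B)
        (by linarith) hB' (Tr.euclid hA hB hL _) (h4 _)
      rw [← e, sub_add_cancel, add_comm t] at h6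
      exact h6

theorem three_nf {t₁ t₂ t₃ a u : ℝ} {L₁ L₂ L₃ : List ℝ} (h1 : Group t₁ L₁) (h2 : Group t₂ L₂)
    (h3 : Group t₃ L₃) (h9 : t₁ < 9) (hu : 0 < u) (hua : u ≤ a) (hk : t₂ * u ≤ (9 - t₁) * a)
    (hsq : (9 - t₁) * a ^ 2 = t₂ * u ^ 2 + t₃) (hm : (∃ m : ℕ, u = m) ∨ (∃ m : ℕ, a = m)) :
    NB.Nf ℂ (L₁.map (fun x => a * x) ++ (L₂.map (fun x => u * x) ++ L₃)).get (3 * a) := by
  obtain ⟨p1, -, -, q1⟩ := h1.props
  obtain ⟨p2, -, -, q2⟩ := h2.props
  obtain ⟨p3, -, -, q3⟩ := h3.props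
  have ha : 0 < a := lt_of_lt_of_le hu hua
  have hs : 0 < 9 - t₁ := by linarith
  obtain ⟨μ, hμ⟩ : ∃ μ : ℝ, Tr (9 - t₁) μ (L₂.map (fun x => u * x) ++ L₃) a := by
    rcases hm with ⟨m, hm⟩ | ⟨m, hm⟩
    · refine ⟨((9 - t₁) * a - 1) / u, ?_⟩
      have h4 := Tr.first (s := 9 - t₁) (μ := ((9 - t₁) * a - 1) / u) (c := 1) (a := a) (t := t₂)
        (c' := 1) (L := L₃) (L' := L₂) hs p2 one_pos (m : ℤ) 1 isCoprime_one_right
        (Int.natCast_nonneg m) (by
          rw [Int.cast_natCast, ← hm, Int.cast_one]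
          field_simp
          ring) (by rw [Int.cast_natCast, ← hm]; exact hua)
        (by rw [Int.cast_natCast, ← hm]; linarith) (q2 _) (by
          rw [Int.cast_natCast, ← hm]
          have e : (9 - t₁) * a ^ 2 - t₂ * u ^ 2 = t₃ := by linarith
          rw [e]
          exact q3 _)
      rw [Int.cast_natCast, ← hm] at h4
      simpa using h4
    · refine ⟨(t₂ * u - 1) / a, ?_⟩
      have h4 := Tr.second (s := 9 - t₁) (μ := (t₂ * u - 1) / a) (c := 1) (x := u) (t := t₂)
        (c' := 1) (L := L₃) (L' := L₂) hs p2 one_pos (m : ℤ) 1 isCoprime_one_right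
        (Int.natCast_nonneg m) (by
          rw [Int.cast_natCast, ← hm, Int.cast_one]
          field_simp
          ring) hu.le (by rw [Int.cast_natCast, ← hm]; exact hua)
        (by rw [Int.cast_natCast, ← hm]; exact hk) (q2 _) (by
          rw [Int.cast_natCast, ← hm]
          have e : (9 - t₁) * a ^ 2 - t₂ * u ^ 2 = t₃ := by linarith
          rw [e]
          exact q3 _)
      rw [Int.cast_natCast, ← hm] at h4
      simpa using h4
  have h5 := Tr.add (s := 9 - t₁) (μ := μ) (t := t₁) (c := a) (c' := 1) (by linarith) one_pos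
    (q1 _) hμ
  rw [sub_add_cancel] at h5
  simp only [div_one] at h5
  exact h5.nf

theorem Sharp.props {L : List ℝ} {c : ℝ} (h : Sharp L c) :
    0 < c ∧ (∀ t ∈ L, 0 < t) ∧ (L.map fun t => t ^ 2).sum = c ^ 2 ∧ NB.Nf ℂ L.get c := by
  induction h with
  | rational L c h =>
    obtain ⟨h1, h2, h3, h4, -⟩ := h.props
    exact ⟨h1, h2, h3, h4⟩
  | three t₁ t₂ t₃ a u L₁ L₂ L₃ h1 h2 h3 h9 hu hua hk hsq hm =>
    have ha : 0 < a := lt_of_lt_of_le hu hua
    refine ⟨by linarith, ?_, ?_, three_nf h1 h2 h3 h9 hu hua hk hsq hm⟩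
    · intro t ht
      simp only [List.mem_append, List.mem_map] at ht
      rcases ht with ⟨x, hx, rfl⟩ | ⟨x, hx, rfl⟩ | ht
      · exact mul_pos ha (h1.props.2.1 x hx)
      · exact mul_pos hu (h2.props.2.1 x hx)
      · exact h3.props.2.1 t ht
    · rw [List.map_append, List.map_append, List.sum_append, List.sum_append, sum_sq_mul,
        sum_sq_mul, h1.props.2.2.1, h2.props.2.2.1, h3.props.2.2.1]
      linarith
  | scale a c L ha _ ih =>
    obtain ⟨h1, h2, h3, h4⟩ := ih
    refine ⟨mul_pos ha h1, ?_, ?_, nf_list_scale ha h4⟩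
    · intro t ht
      obtain ⟨u, hu, rfl⟩ := List.mem_map.1 ht
      exact mul_pos ha (h2 u hu)
    · rw [sum_sq_mul, h3, mul_pow]
  | glue c w L₁ L₂ L' _ _ ih ih' =>
    obtain ⟨h1, h2, h3, h4⟩ := ih
    obtain ⟨h1', h2', h3', h4'⟩ := ih'
    have hL₁ : ∀ t ∈ L₁, 0 < t := fun t ht => h2 t (by simp [ht])
    have hL₂ : ∀ t ∈ L₂, 0 < t := fun t ht => h2 t (by simp [ht])
    refine ⟨h1, ?_, ?_, nf_list_glue hL₁ hL₂ h1' h4 h4'⟩
    · intro t ht
      simp only [List.mem_append] at ht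
      rcases ht with (ht | ht) | ht
      · exact hL₁ t ht
      · exact h2' t ht
      · exact hL₂ t ht
    · rw [← h3]
      simp only [List.map_append, List.sum_append, h3', List.map_cons, List.map_nil,
        List.sum_cons, List.sum_nil, add_zero]

theorem group_ones (j : ℕ) : Group (j : ℝ) (List.replicate j 1) := by
  induction j with
  | zero => simpa using Group.nil
  | succ j ih =>
    have h := Group.add 1 1 [1] (j : ℝ) (List.replicate j 1) one_pos one_pos
      (Mult.big 1 1 [] one_pos le_rfl (Mult.right 1)) ih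
    simp only [Nat.cast_one, div_one, List.map_cons, List.map_nil, List.singleton_append] at h
    rw [List.replicate_succ, Nat.cast_succ, add_comm]
    exact h

theorem sharp_euclid {A B : ℕ} {L : List ℕ} (hB : 0 < B) (hAB : 9 * B ≤ A) (hL : Mult A B L) :
    Sharp (L.map fun m : ℕ => (m : ℝ)) (Real.sqrt (A * B)) := by
  have hA : 0 < A := by omega
  have hA' : (0 : ℝ) < A := by exact_mod_cast hA
  have hB' : (0 : ℝ) < B := by exact_mod_cast hB
  have hq : (9 : ℝ) ≤ (A : ℝ) / B := by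
    rw [le_div_iff₀ hB']
    exact_mod_cast hAB
  have hs : 3 ≤ Real.sqrt ((A : ℝ) / B) := by
    apply Real.le_sqrt_of_sq_le
    linarith
  have hss : Real.sqrt ((A : ℝ) / B) ^ 2 = (A : ℝ) / B := Real.sq_sqrt (by positivity)
  have h := Sharp.three 0 0 ((A : ℝ) / B + 0) (Real.sqrt ((A : ℝ) / B) / 3) 1 [] []
    (L.map (fun m : ℕ => (m : ℝ) / B) ++ []) Group.nil Group.nil
    (Group.add A B L 0 [] hA hB hL Group.nil) (by norm_num) one_pos (by linarith)
    (by linarith) (by rw [div_pow, hss]; ring) (Or.inl ⟨1, by simp⟩)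
  have h2 := Sharp.scale (B : ℝ) _ _ hB' h
  have e1 : (([] : List ℝ).map (fun x => Real.sqrt ((A : ℝ) / B) / 3 * x) ++
      (([] : List ℝ).map (fun x => (1 : ℝ) * x) ++ (L.map (fun m : ℕ => (m : ℝ) / B) ++ []))).map
        (fun t => (B : ℝ) * t) = L.map fun m : ℕ => (m : ℝ) := by
    simp only [List.map_nil, List.nil_append, List.append_nil, List.map_map]
    refine List.map_congr_left fun m _ => ?_
    simp only [Function.comp_apply]
    field_simp
  have e2 : (B : ℝ) * (3 * (Real.sqrt ((A : ℝ) / B) / 3)) = Real.sqrt (A * B) := by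
    rw [BoundaryRays.sqrt_mul_eq hB]
    ring
  rw [e1, e2] at h2
  exact h2

theorem sharp_three {j k r : ℕ} {a x : ℝ} (hj : j ≤ 8) (hx : 0 < x) (hxa : x ≤ a)
    (hk : k * x ≤ (9 - j) * a) (hsq : (9 - j) * a ^ 2 = k * x ^ 2 + r)
    (hm : (∃ m : ℕ, x = m) ∨ (∃ m : ℕ, a = m)) :
    Sharp (List.replicate j a ++ (List.replicate k x ++ List.replicate r 1)) (3 * a) := by
  have hj' : (j : ℝ) ≤ 8 := by exact_mod_cast hj
  have h := Sharp.three j k r a x _ _ _ (group_ones j) (group_ones k) (group_ones r)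
    (by linarith) hx hxa hk hsq hm
  simpa using h

theorem result :
    (∀ (A B : ℕ) (L : List ℕ), 0 < B → 9 * B ≤ A → Mult A B L →
      Sharp (L.map fun m : ℕ => (m : ℝ)) (Real.sqrt (A * B))) ∧
    (∀ (j k r : ℕ) (a x : ℝ), j ≤ 8 → 0 < x → x ≤ a → k * x ≤ (9 - j) * a →
      (9 - j) * a ^ 2 = k * x ^ 2 + r → (∃ m : ℕ, x = m) ∨ (∃ m : ℕ, a = m) →
      Sharp (List.replicate j a ++ (List.replicate k x ++ List.replicate r 1)) (3 * a)) ∧
    ∀ n : ℕ, ∃ f : ℕ → MvPolynomial (Fin n × Fin 2) ℂ, (∀ k, f k ≠ 0) ∧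
      ∀ p : Fin n → Fin 2 → ℂ,
        (∀ k, MvPolynomial.eval (fun q : Fin n × Fin 2 => p q.1 q.2) (f k) ≠ 0) →
        ∀ (L : List ℝ) (c : ℝ), Sharp L c →
          (L.map fun t => t ^ 2).sum = c ^ 2 ∧
          ∀ g : Fin L.length → Fin n, Function.Injective g →
            ∀ x ∈ curvCone p, ∑ j, L.get j * x.2 (g j) ≤ c * x.1 := by
  classical
  refine ⟨fun A B L hB hAB hL => sharp_euclid hB hAB hL,
    fun j k r a x hj hx hxa hk hsq hm => sharp_three hj hx hxa hk hsq hm, fun n => ?_⟩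
  obtain ⟨f, hf, hf'⟩ := exists_conds_all (K := ℂ) n
  refine ⟨f, hf, fun p hp L c hS => ?_⟩
  obtain ⟨_, hpos, hsq, hNf⟩ := hS.props
  refine ⟨hsq, fun g hg => ?_⟩
  refine cone_le (fun j => (hpos _ (List.get_mem L j)).le) fun F e m hF he hF0 hm => ?_
  by_contra hcon
  push Not at hcon
  obtain ⟨x, hx⟩ := hNf (fun j => m (g j)) e (by linarith)
  refine hF0 (hf' p hp e m ⟨_, noForm_ext hg hx⟩ F hF ?_)
  unfold ptJ vIdeal
  rw [Ideal.mem_iInf]
  intro i
  exact mem_of_support (p := p i) (hm i)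

end Pool.Agent.Results.MP_309968_ag.NonuniformIrrationalRays
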