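import Mathlib
import Pool.Agent.Results.MP_309968_ag.BoundaryRays
import Pool.Agent.TH207.NC.Rare
import Pool.Agent.TH146.MN.Rep

set_option autoImplicit false

/-!
# Repeated multiplicities and a few arbitrary ones

For very general points of the plane every class `c H - ∑ c_j E_j` with `c_j ≥ 0` and
`c ^ 2 = ∑ c_j ^ 2` is nef if its coefficients are of one of the following kinds.

* Every nonzero value is taken at least `16` times and is at most `c / 6`.
* All but one coefficient `c_i ≤ c / 3` are at most `c / 12`, and each of their nonzero values is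
  taken at least `96` times.
* `k` of the coefficients are arbitrary numbers in `[0, M]`; each nonzero value `x` of the others is
  taken at least `96` times, at least `384` times if `M / 4 < x < M` and at least `96 k` times if
  `x ≤ M / 4`; the sum of the squares of those at most `M / 4` is at least `48 k M ^ 2`.

Dually, `∑ᵢ (∑_{j ∈ T i} m_j) ^ 2 / |T i| ≤ d ^ 2` for pairwise disjoint sets `T i` of at least `36`
points and every curve of degree `d` with the multiplicities `m_j`.
-/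

namespace Pool.Agent.Results.MP_309968_ag.RepeatedMultiplicities

open Pool.Agent.H932R3 Pool.Agent.H350R3 Pool.Agent.H350R3.GR
open Pool.Agent.Results.MP_309968_ag.BoundaryRays (MultGE curveClasses curvCone cone_le)
open Pool.Agent.TH207.NC

/-- the number of `i` outside `S` with `c i = c j` -/
noncomputable def count {n : ℕ} (c : Fin n → ℝ) (S : Finset (Fin n)) (j : Fin n) : ℕ :=
  (Finset.univ.filter fun i => i ∉ S ∧ c i = c j).card

/-- The coefficients on `S` are arbitrary numbers at most `M`; those outside `S` take each of their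
nonzero values many times; those at most `M / 4` have a large sum of squares. -/
structure Few {n : ℕ} (c : Fin n → ℝ) (S : Finset (Fin n)) (M : ℝ) : Prop where
  le : ∀ i ∈ S, c i ≤ M
  often : ∀ j ∉ S, c j ≠ 0 → 96 ≤ count c S j ∧ (4 * c j ≤ M → 96 * S.card ≤ count c S j) ∧
    (M < 4 * c j → c j < M → 384 ≤ count c S j)
  volume : 48 * (S.card : ℝ) * M ^ 2 ≤
    ∑ j ∈ Finset.univ.filter (fun j => j ∉ S ∧ 4 * c j ≤ M), c j ^ 2

/-- the three kinds of coefficients -/
def Admissible {n : ℕ} (c : Fin n → ℝ) : Prop :=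
  (∀ j, 0 ≤ c j) ∧
    ((∀ j, c j ≠ 0 → 16 ≤ count c ∅ j ∧ 36 * c j ^ 2 ≤ ∑ i, c i ^ 2) ∨
      (∃ i, 9 * c i ^ 2 ≤ ∑ j, c j ^ 2 ∧
        ∀ j, j ≠ i → c j ≠ 0 → 96 ≤ count c {i} j ∧ 144 * c j ^ 2 ≤ ∑ j, c j ^ 2) ∨
      ∃ (S : Finset (Fin n)) (M : ℝ), Few c S M)

theorem sum_ge_card {n : ℕ} {c : Fin n → ℝ} {R : Finset (Fin n)} {j : Fin n}
    (hR : ∀ i ∈ R, c i = c j) : (R.card : ℝ) * c j ^ 2 ≤ ∑ i, c i ^ 2 := by
  have h1 : ∑ i ∈ R, c i ^ 2 = R.card * c j ^ 2 := by
    rw [Finset.sum_congr rfl fun i hi => by rw [hR i hi], Finset.sum_const, nsmul_eq_mul]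
  rw [← h1]
  exact Finset.sum_le_sum_of_subset_of_nonneg (Finset.subset_univ R) fun _ _ _ => sq_nonneg _

theorem Admissible.of_rep {n : ℕ} {c : Fin n → ℝ} (hc : ∀ j, 0 ≤ c j)
    (h : ∀ j, c j ≠ 0 → ∃ R : Finset (Fin n), 36 ≤ R.card ∧ ∀ i ∈ R, c i = c j) :
    Admissible c := by
  refine ⟨hc, Or.inl fun j hj => ?_⟩
  obtain ⟨R, hR, hR'⟩ := h j hj
  refine ⟨?_, ?_⟩
  · have h1 : R.card ≤ count c ∅ j :=
      Finset.card_le_card fun i hi => by
        rw [Finset.mem_filter]
        exact ⟨Finset.mem_univ i, Finset.notMem_empty i, hR' i hi⟩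
    omega
  · have h1 := sum_ge_card hR'
    have h2 : (36 : ℝ) ≤ R.card := by exact_mod_cast hR
    have h3 : 36 * c j ^ 2 ≤ R.card * c j ^ 2 := mul_le_mul_of_nonneg_right h2 (sq_nonneg _)
    linarith

theorem noForm_ext' {n r e : ℕ} {g : Fin r → Fin n} (hg : Function.Injective g) {m : Fin n → ℕ}
    {x : Fin r → Fin 2 → ℂ} (hx : NB.Emp (fun j => m (g j)) x e) :
    NoForm (ptJ (Function.extend g x 0) m) e := by
  refine (noForm_of_emp hx).anti ?_
  unfold ptJ vIdeal
  refine le_iInf fun j => ?_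
  have h2 := iInf_le (fun a => H932R2.cIdeal
    (fun _ : Fin 1 => (Function.extend g x 0 : Fin n → Fin 2 → ℂ) a 0)
    (Polynomial.C ((Function.extend g x 0 : Fin n → Fin 2 → ℂ) a 1)) (m a)) (g j)
  simp only [hg.extend_apply] at h2
  exact h2

/-- the inequality for all forms -/
theorem form_le (n : ℕ) : ∃ f : ℕ → MvPolynomial (Fin n × Fin 2) ℂ, (∀ k, f k ≠ 0) ∧
    ∀ p : Fin n → Fin 2 → ℂ,
      (∀ k, MvPolynomial.eval (fun q : Fin n × Fin 2 => p q.1 q.2) (f k) ≠ 0) →
      ∀ c : Fin n → ℝ, Admissible c →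
        ∀ (F : MvPolynomial (Fin 3) ℂ) (e : ℕ) (m : Fin n → ℕ), F.IsHomogeneous e → F ≠ 0 →
          (∀ i, MultGE (p i) F (m i)) →
          ∑ j, c j * (m j : ℝ) ≤ √(∑ j, c j ^ 2) * e := by
  classical
  obtain ⟨f, hf, hf'⟩ := exists_conds_all (K := ℂ) n
  refine ⟨f, hf, fun p hp c hadm F e m hF hF0 hm => ?_⟩
  obtain ⟨hnn, hadm⟩ := hadm
  -- the transfer from general points
  have key0 : ∀ (r : ℕ) (emb : Fin r → Fin n), Function.Injective emb →
      (∀ j, j ∉ Set.range emb → c j = 0) →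
      NB.Nf ℂ (fun k => c (emb k)) (√(∑ j, c j ^ 2)) →
      ∑ j, c j * (m j : ℝ) ≤ √(∑ j, c j ^ 2) * e := by
    intro r emb hemb h0 h1
    have hs1 : ∑ i, c (emb i) * (m (emb i) : ℝ) = ∑ j, c j * (m j : ℝ) :=
      Fintype.sum_of_injective emb hemb _ _ (fun j hj => by rw [h0 j hj, zero_mul]) fun i => rfl
    rw [← hs1]
    by_contra hcon
    push Not at hcon
    obtain ⟨x, hx⟩ := h1 (fun k => m (emb k)) e hcon
    refine hF0 (hf' p hp e m ⟨_, noForm_ext' hemb hx⟩ F hF ?_)
    unfold ptJ vIdeal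
    rw [Ideal.mem_iInf]
    intro i
    exact mem_of_support (p := p i) (hm i)
  have key : ∀ (ι : Type) [Fintype ι] (emb : ι → Fin n), Function.Injective emb →
      (∀ j, j ∉ Set.range emb → c j = 0) →
      (∃ μ : ℝ, TF 9 μ (fun i => c (emb i)) (√(∑ i, c (emb i) ^ 2) / 3)) →
      ∑ j, c j * (m j : ℝ) ≤ √(∑ j, c j ^ 2) * e := by
    intro ι _ emb hemb h0 ⟨μ, hμ⟩
    have hs2 : ∑ i, c (emb i) ^ 2 = ∑ j, c j ^ 2 :=
      Fintype.sum_of_injective emb hemb _ _ (fun j hj => by rw [h0 j hj]; norm_num) fun i => rfl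
    rw [hs2] at hμ
    let ε : Fin (Fintype.card ι) ≃ ι := (Fintype.equivFin _).symm
    have h1 := (hμ.equiv ε).nf
    have e3 : 3 * (√(∑ j, c j ^ 2) / 3) = √(∑ j, c j ^ 2) := by ring
    rw [e3] at h1
    refine key0 _ (fun k => emb (ε k)) (hemb.comp ε.injective) (fun j hj => h0 j ?_) h1
    rintro ⟨i, rfl⟩
    exact hj ⟨ε.symm i, by simp⟩
  have hpos : ∀ j, c j ≠ 0 → 0 < c j := fun j hj => lt_of_le_of_ne (hnn _) (Ne.symm hj)
  have hnz : IsEmpty {j // c j ≠ 0} → ∑ j, c j * (m j : ℝ) ≤ √(∑ j, c j ^ 2) * e := by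
    intro hE
    have hz : ∀ j, c j = 0 := fun j => by
      by_contra h
      exact hE.elim ⟨j, h⟩
    have h1 : ∑ j, c j * (m j : ℝ) = 0 := Finset.sum_eq_zero fun j _ => by rw [hz j, zero_mul]
    rw [h1]
    positivity
  -- repeated coefficients only
  have hpure : (∀ j, c j ≠ 0 → ∃ R : Finset (Fin n), 96 ≤ R.card ∧ ∀ i ∈ R, c i = c j) →
      ∑ j, c j * (m j : ℝ) ≤ √(∑ j, c j ^ 2) * e := by
    intro h
    rcases isEmpty_or_nonempty {j // c j ≠ 0} with hE | hne
    · exact hnz hE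
    · refine key {j // c j ≠ 0} (fun i => i.1) Subtype.val_injective (fun j hj => ?_)
        (TF.plane (N := 96) le_rfl (fun i => hpos _ i.2) ?_)
      · by_contra h
        exact hj ⟨⟨j, h⟩, rfl⟩
      · rintro ⟨i, hi⟩
        obtain ⟨R, hR, hR'⟩ := h i hi
        refine ⟨R.subtype (fun j => c j ≠ 0), ?_, ?_⟩
        · rw [Finset.card_subtype, Finset.filter_true_of_mem]
          · exact hR
          · intro j hj
            rw [hR' j hj]; exact hi
        · intro j hj
          exact hR' j (Finset.mem_subtype.1 hj)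
  rcases hadm with hadm | ⟨i₀, h9, hadm⟩ | ⟨S, M, hadm⟩
  · -- the first kind
    rcases isEmpty_or_nonempty {j // c j ≠ 0} with hE | hne
    · exact hnz hE
    · let ε : Fin (Fintype.card {j // c j ≠ 0}) ≃ {j // c j ≠ 0} := (Fintype.equivFin _).symm
      have hinj : Function.Injective fun k => (ε k).1 := Subtype.val_injective.comp ε.injective
      have h0 : ∀ j, j ∉ Set.range (fun k => (ε k).1) → c j = 0 := by
        intro j hj
        by_contra h
        exact hj ⟨ε.symm ⟨j, h⟩, by simp⟩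
      have hs2 : ∑ k, c (ε k).1 ^ 2 = ∑ j, c j ^ 2 :=
        Fintype.sum_of_injective _ hinj _ _ (fun j hj => by rw [h0 j hj]; norm_num) fun i => rfl
      obtain ⟨Q, hQ⟩ : ∃ Q, Q = ∑ j, c j ^ 2 := ⟨_, rfl⟩
      obtain ⟨⟨j₀, hj₀⟩⟩ := hne
      have hQ0 : 0 < Q := by
        have h1 := (hadm j₀ hj₀).2
        rw [← hQ] at h1
        have h2 : 0 < c j₀ ^ 2 := by
          have := hpos j₀ hj₀
          positivity
        linarith
      refine key0 _ (fun k => (ε k).1) hinj h0 (Pool.Agent.TH146.MN.nf_rep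
        (fun k => c (ε k).1) (fun k => hpos _ (ε k).2) ?_ ?_ ?_ ?_)
      · rw [← hQ]; exact Real.sqrt_pos.2 hQ0
      · rw [hs2, ← hQ, Real.sq_sqrt hQ0.le]
      · intro k
        refine (hadm _ (ε k).2).1.trans ?_
        refine le_trans ?_ (le_of_eq
          (Fintype.card_subtype (fun j => c (ε j).1 = c (ε k).1)).symm)
        unfold count
        refine Finset.card_le_card_of_injOn (fun i => if h : c i ≠ 0 then ε.symm ⟨i, h⟩ else k)
          ?_ ?_
        · intro i hi
          rw [Finset.mem_coe, Finset.mem_filter] at hi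
          have h1 : c i ≠ 0 := by rw [hi.2.2]; exact (ε k).2
          simp only [dif_pos h1, Finset.mem_coe, Finset.mem_filter, Finset.mem_univ, true_and,
            Equiv.apply_symm_apply]
          exact hi.2.2
        · intro i hi i' hi' hii
          rw [Finset.mem_coe, Finset.mem_filter] at hi hi'
          have h1 : c i ≠ 0 := by rw [hi.2.2]; exact (ε k).2
          have h1' : c i' ≠ 0 := by rw [hi'.2.2]; exact (ε k).2
          simp only [dif_pos h1, dif_pos h1'] at hii
          exact congrArg Subtype.val (ε.symm.injective hii)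
      · intro k
        apply Real.le_sqrt_of_sq_le
        have h1 := (hadm _ (ε k).2).2
        nlinarith
  · -- one arbitrary coefficient
    have hcount : ∀ j, j ≠ i₀ → c j ≠ 0 → ∃ R : Finset {j // j ≠ i₀ ∧ c j ≠ 0}, 96 ≤ R.card ∧
        ∀ i ∈ R, c i = c j := by
      intro j hj hj0
      refine ⟨(Finset.univ.filter fun i => i ∉ ({i₀} : Finset (Fin n)) ∧ c i = c j).subtype
        (fun j => j ≠ i₀ ∧ c j ≠ 0), ?_, ?_⟩
      · rw [Finset.card_subtype, Finset.filter_true_of_mem]
        · exact (hadm j hj hj0).1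
        · intro i hi
          rw [Finset.mem_filter, Finset.mem_singleton] at hi
          exact ⟨hi.2.1, by rw [hi.2.2]; exact hj0⟩
      · intro i hi
        exact (Finset.mem_filter.1 (Finset.mem_subtype.1 hi)).2.2
    by_cases hi₀ : c i₀ = 0
    · refine hpure fun j hj => ?_
      have h1 : j ≠ i₀ := fun h => hj (h ▸ hi₀)
      exact ⟨_, (hadm j h1 hj).1, fun i hi => (Finset.mem_filter.1 hi).2.2⟩
    · let emb : Unit ⊕ {j // j ≠ i₀ ∧ c j ≠ 0} → Fin n := Sum.elim (fun _ => i₀) fun j => j.1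
      have hemb : Function.Injective emb := by
        rintro (⟨⟩ | ⟨a, ha, ha'⟩) (⟨⟩ | ⟨b, hb, hb'⟩) h <;>
          simp only [emb, Sum.elim_inl, Sum.elim_inr] at h
        · rfl
        · exact absurd h.symm hb
        · exact absurd h ha
        · subst h; rfl
      have hfun : (fun i => c (emb i)) = Sum.elim (fun _ : Unit => c i₀)
          (fun j : {j // j ≠ i₀ ∧ c j ≠ 0} => c j) := by
        funext i
        rcases i with i | i <;> rfl
      have h0 : ∀ j, j ∉ Set.range emb → c j = 0 := by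
        intro j hj
        by_contra h
        apply hj
        by_cases h1 : j = i₀
        · exact ⟨Sum.inl (), h1.symm⟩
        · exact ⟨Sum.inr ⟨j, h1, h⟩, rfl⟩
      have hsum : ∑ i, c (emb i) ^ 2 = c i₀ ^ 2 + ∑ j : {j // j ≠ i₀ ∧ c j ≠ 0}, c j ^ 2 := by
        rw [Fintype.sum_sum_type]
        simp [emb]
      have hs2 : ∑ i, c (emb i) ^ 2 = ∑ j, c j ^ 2 :=
        Fintype.sum_of_injective emb hemb _ _ (fun j hj => by rw [h0 j hj]; norm_num) fun i => rfl
      refine key _ emb hemb h0 ?_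
      rw [hfun, hsum]
      rw [← hs2, hsum] at h9
      refine TF.one_plane (hpos _ hi₀) (fun j => hpos _ j.2.2) (fun j => ?_) (fun j => ?_) h9
      · exact hcount j.1 j.2.1 j.2.2
      · have h5 := (hadm j.1 j.2.1 j.2.2).2
        rwa [← hs2, hsum] at h5
  · -- several arbitrary coefficients
    have hrep : ∀ (P : Fin n → Prop), (∀ i j, c i = c j → j ∉ S → i ∉ S → P j → P i) →
        ∀ (N : ℕ) (j : {j // j ∉ S ∧ P j}), N ≤ count c S j →
          ∃ R : Finset {j // j ∉ S ∧ P j}, N ≤ R.card ∧ ∀ i ∈ R, c i = c j := by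
      rintro P hP N ⟨j, hjS, hj⟩ hN
      refine ⟨(Finset.univ.filter fun i => i ∉ S ∧ c i = c j).subtype
        (fun j => j ∉ S ∧ P j), ?_, ?_⟩
      · rw [Finset.card_subtype, Finset.filter_true_of_mem]
        · exact hN
        · intro i hi
          rw [Finset.mem_filter] at hi
          exact ⟨hi.2.1, hP i j hi.2.2 hjS hi.2.1 hj⟩
      · intro i hi
        exact (Finset.mem_filter.1 (Finset.mem_subtype.1 hi)).2.2
    rcases isEmpty_or_nonempty {j // j ∈ S ∧ c j ≠ 0} with hE | hne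
    · refine hpure fun j hj => ?_
      have h1 : j ∉ S := fun h => hE.elim ⟨j, h, hj⟩
      exact ⟨_, (hadm.often j h1 hj).1, fun i hi => (Finset.mem_filter.1 hi).2.2⟩
    · have hM0 : 0 < M := by
        obtain ⟨⟨i, hi, hi'⟩⟩ := hne
        exact (hpos i hi').trans_le (hadm.le i hi)
      have hk : Fintype.card {j // j ∈ S ∧ c j ≠ 0} ≤ S.card := by
        rw [Fintype.card_subtype]
        refine Finset.card_le_card fun j hj => ?_
        exact (Finset.mem_filter.1 hj).2.1
      let emb : {j // j ∉ S ∧ M ≤ c j} ⊕ ({j // j ∉ S ∧ (c j < M ∧ M < 4 * c j)} ⊕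
        ({j // j ∈ S ∧ c j ≠ 0} ⊕ {j // j ∉ S ∧ (4 * c j ≤ M ∧ c j ≠ 0)})) → Fin n :=
        Sum.elim (fun j => j.1) (Sum.elim (fun j => j.1) (Sum.elim (fun j => j.1) fun j => j.1))
      have hemb : Function.Injective emb := by
        rintro (⟨a, ha, ha'⟩ | ⟨a, ha, ha', ha''⟩ | ⟨a, ha, ha'⟩ | ⟨a, ha, ha', ha''⟩)
          (⟨b, hb, hb'⟩ | ⟨b, hb, hb', hb''⟩ | ⟨b, hb, hb'⟩ | ⟨b, hb, hb', hb''⟩) h <;>
          simp only [emb, Sum.elim_inl, Sum.elim_inr] at h <;> subst h <;>
          first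
            | rfl
            | exact absurd hb ha
            | exact absurd ha hb
            | (exfalso; linarith)
      have hfun : (fun i => c (emb i)) = Sum.elim (fun b : {j // j ∉ S ∧ M ≤ c j} => c b)
          (Sum.elim (fun b : {j // j ∉ S ∧ (c j < M ∧ M < 4 * c j)} => c b)
            (Sum.elim (fun i : {j // j ∈ S ∧ c j ≠ 0} => c i)
              (fun j : {j // j ∉ S ∧ (4 * c j ≤ M ∧ c j ≠ 0)} => c j))) := by
        funext i
        rcases i with i | i | i | i <;> rfl
      have hvol : ∑ j : {j // j ∉ S ∧ (4 * c j ≤ M ∧ c j ≠ 0)}, c j ^ 2 =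
          ∑ j ∈ Finset.univ.filter (fun j => j ∉ S ∧ 4 * c j ≤ M), c j ^ 2 := by
        rw [← Finset.sum_subtype (Finset.univ.filter fun j => j ∉ S ∧ (4 * c j ≤ M ∧ c j ≠ 0))
          (fun j => by simp) fun j => c j ^ 2]
        refine Finset.sum_subset (fun j hj => ?_) fun j hj hj' => ?_
        · rw [Finset.mem_filter] at hj ⊢
          exact ⟨hj.1, hj.2.1, hj.2.2.1⟩
        · rw [Finset.mem_filter] at hj
          have h1 : c j = 0 := by
            by_contra h
            exact hj' (Finset.mem_filter.2 ⟨hj.1, hj.2.1, hj.2.2, h⟩)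
          rw [h1]
          norm_num
      refine key _ emb hemb (fun j hj => ?_) ?_
      · by_contra h
        apply hj
        by_cases h1 : j ∈ S
        · exact ⟨Sum.inr (Sum.inr (Sum.inl ⟨j, h1, h⟩)), rfl⟩
        · rcases le_or_gt M (c j) with h2 | h2
          · exact ⟨Sum.inl ⟨j, h1, h2⟩, rfl⟩
          · rcases le_or_gt (4 * c j) M with h3 | h3
            · exact ⟨Sum.inr (Sum.inr (Sum.inr ⟨j, h1, h3, h⟩)), rfl⟩
            · exact ⟨Sum.inr (Sum.inl ⟨j, h1, h2, h3⟩), rfl⟩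
      · have h1 := TF.mixed_plane (B := fun b : {j // j ∉ S ∧ M ≤ c j} => c b)
          (V := fun b : {j // j ∉ S ∧ (c j < M ∧ M < 4 * c j)} => c b)
          (R := fun i : {j // j ∈ S ∧ c j ≠ 0} => c i)
          (L := fun j : {j // j ∉ S ∧ (4 * c j ≤ M ∧ c j ≠ 0)} => c j)
          hM0 (fun b => b.2.2)
          (fun b => hrep _ (fun i j hij _ _ hj => by rw [hij]; exact hj) 96 b
            (hadm.often b.1 b.2.1 (by have := b.2.2; intro h; linarith)).1)
          (fun y => y.2.2.2.le) (fun y => y.2.2.1.le)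
          (fun b => hrep _ (fun i j hij _ _ hj => by rw [hij]; exact hj) 384 b
            ((hadm.often b.1 b.2.1 (by have := b.2.2.2; intro h; linarith)).2.2
              b.2.2.2 b.2.2.1))
          (fun i => hpos _ i.2.2) (fun i => hadm.le _ i.2.1) (fun j => hpos _ j.2.2.2)
          (fun b => hrep _ (fun i j hij _ _ hj => by rw [hij]; exact hj) _ b
            (le_trans (Nat.mul_le_mul_left 96 hk)
              ((hadm.often b.1 b.2.1 b.2.2.2).2.1 b.2.2.1)))
          (fun j => j.2.2.1) (by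
            rw [hvol]
            refine le_trans ?_ hadm.volume
            have h2 : (Fintype.card {j // j ∈ S ∧ c j ≠ 0} : ℝ) ≤ S.card := by exact_mod_cast hk
            have h3 : 0 ≤ M ^ 2 := sq_nonneg M
            nlinarith)
        rw [← hfun] at h1
        exact h1

theorem result (n : ℕ) :
    ∃ f : ℕ → MvPolynomial (Fin n × Fin 2) ℂ, (∀ k, f k ≠ 0) ∧
      ∀ p : Fin n → Fin 2 → ℂ,
        (∀ k, MvPolynomial.eval (fun q : Fin n × Fin 2 => p q.1 q.2) (f k) ≠ 0) →
        (∀ c : Fin n → ℝ, Admissible c →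
          ∀ x ∈ curvCone p, ∑ j, c j * x.2 j ≤ √(∑ j, c j ^ 2) * x.1) ∧
        ∀ (F : MvPolynomial (Fin 3) ℂ) (e : ℕ) (m : Fin n → ℕ), F.IsHomogeneous e → F ≠ 0 →
          (∀ i, MultGE (p i) F (m i)) →
          (∀ (r : ℕ) (T : Fin r → Finset (Fin n)), (∀ i j, i ≠ j → Disjoint (T i) (T j)) →
            (∀ i, 36 ≤ (T i).card) →
            ∑ i, (∑ j ∈ T i, (m j : ℝ)) ^ 2 / (T i).card ≤ (e : ℝ) ^ 2) ∧
          (Admissible (fun j => (m j : ℝ)) → ∑ j, m j ^ 2 ≤ e ^ 2) := by
  classical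
  obtain ⟨f, hf, hf'⟩ := form_le n
  refine ⟨f, hf, fun p hp => ⟨fun c hadm => ?_, fun F e m hF hF0 hm => ?_⟩⟩
  · have h := cone_le (p := p) (l := c) (g := id) (c := √(∑ j, c j ^ 2)) hadm.1
      fun F e m hF he hF0 hm => by
        have h1 := hf' p hp c hadm F e m hF hF0 hm
        simp only [id]
        linarith
    simpa using h
  have core : ∀ c : Fin n → ℝ, Admissible c →
      ∑ j, c j ^ 2 ≤ ∑ j, c j * (m j : ℝ) → ∑ j, c j ^ 2 ≤ (e : ℝ) ^ 2 := by
    intro c hadm hle
    have h1 := hf' p hp c hadm F e m hF hF0 hm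
    obtain ⟨Q, hQ⟩ : ∃ Q, Q = ∑ j, c j ^ 2 := ⟨_, rfl⟩
    rw [← hQ] at h1 hle ⊢
    have hQ0 : 0 ≤ Q := by rw [hQ]; positivity
    have hs : √Q * √Q = Q := Real.mul_self_sqrt hQ0
    rcases eq_or_lt_of_le hQ0 with h0 | h0
    · rw [← h0]; positivity
    have hs0 : 0 < √Q := Real.sqrt_pos.2 h0
    have h2 : √Q ≤ e := by
      have : √Q * √Q ≤ √Q * e := by rw [hs]; linarith
      exact le_of_mul_le_mul_left this hs0
    nlinarith
  refine ⟨fun r T hT hcard => ?_, fun hadm => ?_⟩
  · -- the weights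
    obtain ⟨a, ha⟩ : ∃ a : Fin r → ℝ, a = fun i => (∑ j ∈ T i, (m j : ℝ)) / (T i).card :=
      ⟨_, rfl⟩
    obtain ⟨c, hcdef⟩ : ∃ c : Fin n → ℝ, c = fun j => ∑ i, if j ∈ T i then a i else 0 :=
      ⟨_, rfl⟩
    have hcT : ∀ i, ∀ j ∈ T i, c j = a i := by
      intro i j hj
      rw [hcdef]
      simp only
      rw [Finset.sum_eq_single i]
      · rw [if_pos hj]
      · intro i' _ hi'
        rw [if_neg fun h => (Finset.disjoint_left.1 (hT i' i hi')) h hj]
      · intro h
        exact absurd (Finset.mem_univ i) h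
    have hc0 : ∀ j, (∀ i, j ∉ T i) → c j = 0 := by
      intro j hj
      rw [hcdef]
      simp only
      exact Finset.sum_eq_zero fun i _ => if_neg (hj i)
    have ha0 : ∀ i, 0 ≤ a i := by
      intro i
      rw [ha]
      positivity
    have hc : ∀ j, 0 ≤ c j := by
      intro j
      by_cases hj : ∃ i, j ∈ T i
      · obtain ⟨i, hi⟩ := hj
        rw [hcT i j hi]
        exact ha0 i
      · push Not at hj
        rw [hc0 j hj]
    have hbi : ∀ g : Fin n → ℝ, (∀ j, (∀ i, j ∉ T i) → g j = 0) →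
        ∑ j, g j = ∑ i, ∑ j ∈ T i, g j := by
      intro g hg
      rw [← Finset.sum_biUnion fun i _ j _ hij => hT i j hij]
      symm
      refine Finset.sum_subset (Finset.subset_univ _) fun j _ hj => hg j fun i hi => ?_
      exact hj (Finset.mem_biUnion.2 ⟨i, Finset.mem_univ i, hi⟩)
    have hcd : ∀ i, (0 : ℝ) < (T i).card := by
      intro i
      have := hcard i
      exact_mod_cast (by omega : 0 < (T i).card)
    have hQ : ∑ j, c j ^ 2 = ∑ i, (∑ j ∈ T i, (m j : ℝ)) ^ 2 / (T i).card := by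
      rw [hbi (fun j => c j ^ 2) fun j hj => by
        rw [hc0 j hj]
        norm_num]
      refine Finset.sum_congr rfl fun i _ => ?_
      rw [Finset.sum_congr rfl fun j hj => by rw [hcT i j hj], Finset.sum_const, nsmul_eq_mul, ha]
      simp only
      have := hcd i
      field_simp
    have hM : ∑ j, c j * (m j : ℝ) = ∑ i, (∑ j ∈ T i, (m j : ℝ)) ^ 2 / (T i).card := by
      rw [hbi (fun j => c j * (m j : ℝ)) fun j hj => by
        rw [hc0 j hj, zero_mul]]
      refine Finset.sum_congr rfl fun i _ => ?_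
      rw [Finset.sum_congr rfl fun j hj => by rw [hcT i j hj], ← Finset.mul_sum, ha]
      simp only
      have := hcd i
      field_simp
    have h1 := core c (Admissible.of_rep hc fun j hj => by
      by_contra hcon
      apply hj
      apply hc0 j
      intro i hi
      exact hcon ⟨T i, hcard i, fun j' hj' => by rw [hcT i j' hj', hcT i j hi]⟩)
      (by rw [hQ, hM])
    rwa [hQ] at h1
  · have h1 := core _ hadm (by
      refine le_of_eq (Finset.sum_congr rfl fun j _ => ?_)
      ring)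
    exact_mod_cast h1

end Pool.Agent.Results.MP_309968_ag.RepeatedMultiplicities
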